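import Pool.Agent.L0h86.E3.En8

/-!
# The translation of the system of class (c) into the good systems of project E3 (helper75)

Modelled on `Pool.Agent.L0h74.T3.TR` (helper74).
-/

set_option autoImplicit false
set_option linter.unusedSectionVars false

open scoped Classical

namespace Pool.Agent.L0h75.E3

open Pool.Agent.Y698.SG (ix)
open Pool.Agent.L0h4.TW (mem_ix two_self)
open Pool.Agent.L0h23.KD (sum_ix Sys sys_iff Rel)
open Pool.Agent.Y703.CQ (nr)
open Pool.Agent.N973.ND (uu nr_rec nr_self Ph TT rw' rw_eq)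
open Pool.Agent.L0h74.T3 (m3 ty)
open Pool.Agent.L0h74.T3.TR (cI rowz phz lamz)
open Pool.Agent.L0h74.E3 (n2 GdE GdO GRO nO eO bO m3O tyO)
open Pool.Agent.L0h86.E3 (En8 S_TR8)

section
variable {Q P : Finset ℕ} {m : ℕ × Bool → ℕ × Bool → ZMod 2} {n r e : ℕ × Bool → ZMod 2}
    {ε s : ZMod 2} {a : ℕ → ℕ → ZMod 2} {t : ℕ → ZMod 2}

lemma dis8 (h : En8 Q P m n r e ε s a t) : Disjoint Q P := by
  rw [Finset.disjoint_left]
  intro l h1 h2
  have h3 := h.q l h1
  have h4 := h.p l h2
  omega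

lemma odd8 (h : En8 Q P m n r e ε s a t) {l : ℕ} (hl : l ∈ P) : l ≠ 2 := by
  rintro rfl
  have := (h.p 2 hl).2
  omega

lemma pr8 (h : En8 Q P m n r e ε s a t) {l : ℕ} (hl : l ∈ Q ∪ P) : l.Prime ∧ l ≠ 2 := by
  rcases Finset.mem_union.1 hl with h1 | h1
  · refine ⟨(h.q l h1).1, ?_⟩
    rintro rfl
    have := (h.q 2 h1).2.1
    omega
  · exact ⟨(h.p l h1).1, odd8 h h1⟩

lemma recp8 (h : En8 Q P m n r e ε s a t) {l k : ℕ} (hl : l ∈ Q ∪ P) (hk : k ∈ Q ∪ P)
    (hlk : l ≠ k) : nr l k = nr k l + uu l * uu k := by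
  have h1 := nr_rec (p := k) (q := l) (pr8 h hk).1 (pr8 h hk).2 (pr8 h hl).1 (pr8 h hl).2
    (Ne.symm hlk)
  rw [h1]
  ring

/-- the symbols of the additional prime -/
def N8 (s : ZMod 2) (p : ℕ) : ZMod 2 := n2 p + uu p + s * uu p

variable (Q P m n r e ε) in
/-- the row of the system -/
noncomputable def brow8 (x : ℕ × Bool → ZMod 2) (y : ZMod 2) (j : ℕ × Bool) : ZMod 2 :=
  ∑ i ∈ ix Q P, m i j * (x i + x j) + (r j + (1 + ε) * n j + e j) * x j + n j * x (cI Q j) + e j * y

lemma brow8_eq (x : ℕ × Bool → ZMod 2) (y : ZMod 2) {j : ℕ × Bool} (hj : j ∈ ix Q P) :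
    ∑ i ∈ (ix Q P).erase j, m i j * x i +
      (∑ i ∈ (ix Q P).erase j, m i j + e j + (1 + ε) * n j + r j) * x j +
      n j * x (cI Q j) + e j * y = brow8 Q P m n r e ε x y j := by
  unfold brow8
  rw [← Finset.add_sum_erase (ix Q P) (fun i => m i j * (x i + x j)) hj, two_self, mul_zero,
    zero_add]
  have h1 : ∑ i ∈ (ix Q P).erase j, m i j * (x i + x j) =
      ∑ i ∈ (ix Q P).erase j, m i j * x i + (∑ i ∈ (ix Q P).erase j, m i j) * x j := by
    rw [Finset.sum_mul, ← Finset.sum_add_distrib]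
    exact Finset.sum_congr rfl fun i _ => by ring
  rw [h1]
  ring

lemma cI_P8 (h : En8 Q P m n r e ε s a t) {p : ℕ} (hp : p ∈ P) (b : Bool) :
    cI Q (p, b) = (p, !b) := by
  unfold cI
  rw [if_neg fun h' => (Finset.disjoint_left.1 (dis8 h) h' hp)]

lemma rec_sum8 (h : En8 Q P m n r e ε s a t) (Z : ℕ → ZMod 2) {p : ℕ} (hp : p ∈ Q ∪ P) :
    ∑ j ∈ Q ∪ P, nr p j * (Z j + Z p) =
      ∑ j ∈ Q ∪ P, nr j p * (Z j + Z p) + uu p * ∑ j ∈ Q ∪ P, uu j * Z j +
        uu p * Z p * (1 + s) := by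
  have h1 : ∀ j ∈ Q ∪ P, nr p j * (Z j + Z p) =
      nr j p * (Z j + Z p) + uu p * (uu j * Z j) + uu p * Z p * uu j := by
    intro j hj
    by_cases hpj : p = j
    · subst hpj
      rw [two_self, mul_zero, zero_add]
      linear_combination -(two_self (uu p * (uu p * Z p)))
    · rw [recp8 h hp hj hpj]
      ring
  rw [Finset.sum_congr rfl h1, Finset.sum_add_distrib, Finset.sum_add_distrib, ← Finset.mul_sum,
    ← Finset.mul_sum, h.u]

lemma rec_sum8' (h : En8 Q P m n r e ε s a t) {p : ℕ} (hp : p ∈ Q ∪ P) :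
    ∑ j ∈ Q ∪ P, nr p j = ∑ j ∈ Q ∪ P, nr j p + uu p * (1 + s) + uu p := by
  have h1 : ∀ j ∈ Q ∪ P, nr p j = nr j p + uu p * uu j + (if p = j then uu p else 0) := by
    intro j hj
    by_cases hpj : p = j
    · subst hpj
      rw [if_pos rfl]
      have : ∀ z : ZMod 2, z = z * z := by decide
      linear_combination -(two_self (uu p)) + this (uu p)
    · rw [recp8 h hp hj hpj, if_neg hpj, add_zero]
  rw [Finset.sum_congr rfl h1, Finset.sum_add_distrib, Finset.sum_add_distrib, ← Finset.mul_sum,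
    h.u, Finset.sum_ite_eq, if_pos hp]

lemma brow8_pf (h : En8 Q P m n r e ε s a t) {x : ℕ × Bool → ZMod 2} {Z S : ℕ → ZMod 2}
    (hr : Rel Q P x Z S) (y : ZMod 2) {p : ℕ} (hp : p ∈ P) :
    brow8 Q P m n r e ε x y (p, false) = rowz Q P a t Z S p + N8 s p * (Z p + y) +
      uu p * (lamz Q P t Z S + s * y) := by
  have hfQ : ∀ q ∈ Q, x (q, false) = Z q := fun q hq => hr.f q (Finset.mem_union_left _ hq)
  have hfP : ∀ k ∈ P, x (k, false) = Z k := fun k hk => hr.f k (Finset.mem_union_right _ hk)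
  have hp' : p ∈ Q ∪ P := Finset.mem_union_right _ hp
  have h1 : ∀ k ∈ P, m (k, false) (p, false) * (x (k, false) + x (p, false)) +
      m (k, true) (p, false) * (x (k, true) + x (p, false)) =
      nr p k * (Z k + Z p) + (if p = k then 0 else (a k p + uu p * uu k + uu p * t k) + nr k p) * S k +
        uu p * (t k * S k) + (if p = k then (t p + uu p) * S p else 0) := by
    intro k hk
    by_cases hpk : p = k
    · subst hpk
      rw [h.sf p hp, if_pos rfl, if_pos rfl, hfP p hp, hr.t p hp, nr_self, two_self (Z p)]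
      linear_combination (t p + uu p + t p * uu p) * two_self (Z p)
    · rw [h.ff k hk p hp (Ne.symm hpk), h.tf k hk p hp (Ne.symm hpk), if_neg hpk, if_neg hpk,
        hfP p hp, hfP k hk, hr.t k hk, recp8 h hp' (Finset.mem_union_right _ hk) hpk]
      linear_combination two_self (a k p * (Z k + Z p)) - two_self (uu p * t k * S k)
  have h2 : ∀ q ∈ Q, m (q, false) (p, false) * (x (q, false) + x (p, false)) =
      nr p q * (Z q + Z p) + uu p * Z q + uu p * Z p := by
    intro q hq
    rw [h.qp p hp q hq, hfP p hp, hfQ q hq]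
    ring
  have h3 : ∑ k ∈ Q, (if p = k then 0 else (a k p + uu p * uu k + uu p * t k) + nr k p) * S k = 0 :=
    Finset.sum_eq_zero fun q hq => by rw [hr.q q hq, mul_zero]
  have h4 := rec_sum8 h Z hp'
  unfold brow8 rowz lamz N8
  rw [sum_ix (dis8 h), Finset.sum_congr rfl h1, Finset.sum_congr rfl h2, h.rf p hp, h.np p hp, h.c,
    cI_P8 h hp, hfP p hp, show (!false) = true from rfl, hr.t p hp, h.ep p hp,
    Finset.sum_union (f := fun k => (if p = k then 0 else (a k p + uu p * uu k + uu p * t k) +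
      nr k p) * S k) (dis8 h), h3]
  rw [Finset.sum_union (f := fun j => nr p j * (Z j + Z p)) (dis8 h)] at h4
  have e8 : ∑ q ∈ Q, uu p * Z q = uu p * ∑ q ∈ Q, Z q := (Finset.mul_sum _ _ _).symm
  have e9 : ∑ k ∈ P, uu p * (t k * S k) = uu p * ∑ k ∈ P, t k * S k := (Finset.mul_sum _ _ _).symm
  rw [Finset.sum_add_distrib, Finset.sum_add_distrib, Finset.sum_add_distrib, Finset.sum_add_distrib,
    Finset.sum_add_distrib, e8, e9, Finset.sum_const,
    Finset.sum_ite_eq P p, if_pos hp, nsmul_eq_mul]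
  linear_combination h4 + two_self ((Q.card : ZMod 2) * uu p * Z p) + 2 * two_self (uu p * Z p) +
    two_self (uu p * S p) - two_self (uu p * y * s)

lemma brow8_pt (h : En8 Q P m n r e ε s a t) {x : ℕ × Bool → ZMod 2} {Z S : ℕ → ZMod 2}
    (hr : Rel Q P x Z S) (y : ZMod 2) {p : ℕ} (hp : p ∈ P) :
    brow8 Q P m n r e ε x y (p, false) + brow8 Q P m n r e ε x y (p, true) =
      phz Q P t S p + N8 s p * S p + uu p * Z p := by
  have hfQ : ∀ q ∈ Q, x (q, false) = Z q := fun q hq => hr.f q (Finset.mem_union_left _ hq)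
  have hfP : ∀ k ∈ P, x (k, false) = Z k := fun k hk => hr.f k (Finset.mem_union_right _ hk)
  have hp' : p ∈ Q ∪ P := Finset.mem_union_right _ hp
  have h1 : ∀ k ∈ P, (m (k, false) (p, false) * (x (k, false) + x (p, false)) +
      m (k, true) (p, false) * (x (k, true) + x (p, false))) +
      (m (k, false) (p, true) * (x (k, false) + x (p, true)) +
      m (k, true) (p, true) * (x (k, true) + x (p, true))) =
      S k * nr p k + nr p k * S p := by
    intro k hk
    by_cases hpk : p = k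
    · subst hpk
      rw [h.sf p hp, h.st p hp, hfP p hp, hr.t p hp, nr_self]
      linear_combination m (p, false) (p, false) * two_self (Z p) +
        m (p, true) (p, true) * two_self (Z p + S p) +
        (t p + uu p + t p * uu p) * (two_self (Z p) + two_self (Z p) + two_self (S p))
    · rw [h.ff k hk p hp (Ne.symm hpk), h.tf k hk p hp (Ne.symm hpk),
        h.ft k hk p hp (Ne.symm hpk), h.tt k hk p hp (Ne.symm hpk),
        hfP p hp, hfP k hk, hr.t k hk, hr.t p hp]
      linear_combination a k p * (two_self (Z k) + two_self (Z k) + two_self (Z p) +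
        two_self (Z p) + two_self (S k) + two_self (S p)) + nr p k * (two_self (Z k) + two_self (Z p))
  have h2 : ∀ q ∈ Q, m (q, false) (p, false) * (x (q, false) + x (p, false)) +
      m (q, false) (p, true) * (x (q, false) + x (p, true)) = nr p q * S p + uu p * S p := by
    intro q hq
    rw [h.qp p hp q hq, h.qp p hp q hq, hfP p hp, hfQ q hq, hr.t p hp]
    linear_combination (nr p q + uu p) * (two_self (Z q) + two_self (Z p))
  have h4 := rec_sum8' h hp'
  rw [Finset.sum_union (dis8 h)] at h4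
  have e1 : brow8 Q P m n r e ε x y (p, false) + brow8 Q P m n r e ε x y (p, true) =
      (∑ q ∈ Q, (m (q, false) (p, false) * (x (q, false) + x (p, false)) +
        m (q, false) (p, true) * (x (q, false) + x (p, true)))) +
      (∑ k ∈ P, ((m (k, false) (p, false) * (x (k, false) + x (p, false)) +
      m (k, true) (p, false) * (x (k, true) + x (p, false))) +
      (m (k, false) (p, true) * (x (k, false) + x (p, true)) +
      m (k, true) (p, true) * (x (k, true) + x (p, true))))) +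
      ((r (p, false) + (1 + ε) * n (p, false) + e (p, false)) * x (p, false) +
        n (p, false) * x (p, true) + e (p, false) * y) +
      ((r (p, true) + (1 + ε) * n (p, true) + e (p, true)) * x (p, true) +
        n (p, true) * x (p, false) + e (p, true) * y) := by
    unfold brow8
    rw [sum_ix (dis8 h), sum_ix (dis8 h), Finset.sum_add_distrib (s := Q),
      Finset.sum_add_distrib (s := P)
      (f := fun k => (m (k, false) (p, false) * (x (k, false) + x (p, false)) +
      m (k, true) (p, false) * (x (k, true) + x (p, false)))), cI_P8 h hp, cI_P8 h hp]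
    show _ + n (p, false) * x (p, true) + _ + (_ + n (p, true) * x (p, false) + _) = _
    ring
  rw [e1, Finset.sum_congr rfl h1, Finset.sum_congr rfl h2, h.rf p hp, h.rt p hp, h.np p hp,
    h.np p hp, h.ep p hp, h.ep p hp, h.c, hfP p hp, hr.t p hp]
  unfold phz N8
  rw [Finset.sum_union (f := fun i => S i * nr p i) (dis8 h)]
  have h3 : ∑ k ∈ Q, S k * nr p k = 0 :=
    Finset.sum_eq_zero fun q hq => by rw [hr.q q hq, zero_mul]
  rw [h3, Finset.sum_add_distrib, Finset.sum_add_distrib, ← Finset.sum_mul, ← Finset.sum_mul,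
    Finset.sum_const, nsmul_eq_mul]
  have e9 : ∑ x ∈ P, nr p x * S p = S p * ∑ x ∈ P, nr p x := by
    rw [Finset.mul_sum]
    exact Finset.sum_congr rfl fun _ _ => by ring
  linear_combination S p * h4 + two_self (t p * Z p) + (Q.card : ZMod 2) * two_self (uu p * Z p) +
    (Q.card : ZMod 2) * two_self (uu p * S p) + 3 * two_self (uu p * Z p) + 2 * two_self (uu p * S p) +
    e9 + two_self (uu p * y) + two_self (n2 p * Z p) + two_self (n2 p * y)

lemma brow8_q (h : En8 Q P m n r e ε s a t) {x : ℕ × Bool → ZMod 2} {Z S : ℕ → ZMod 2}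
    (hr : Rel Q P x Z S) (y : ZMod 2) {q : ℕ} (hq : q ∈ Q) :
    brow8 Q P m n r e ε x y (q, false) = phz Q P t S q + (1 + uu q) * Z q := by
  have hfQ : ∀ q ∈ Q, x (q, false) = Z q := fun q hq => hr.f q (Finset.mem_union_left _ hq)
  have hfP : ∀ k ∈ P, x (k, false) = Z k := fun k hk => hr.f k (Finset.mem_union_right _ hk)
  have h1 : ∀ k ∈ P, m (k, false) (q, false) * (x (k, false) + x (q, false)) +
      m (k, true) (q, false) * (x (k, true) + x (q, false)) = S k * nr q k := by
    intro k hk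
    rw [h.pq k hk q hq, h.pq k hk q hq, hfP k hk, hfQ q hq, hr.t k hk]
    linear_combination nr q k * (two_self (Z k) + two_self (Z q))
  have h2 : ∀ q' ∈ Q, m (q', false) (q, false) * (x (q', false) + x (q, false)) = 0 := by
    intro q' hq'
    by_cases hqq : q' = q
    · subst hqq
      rw [two_self, mul_zero]
    · rw [h.qq q' hq' q hq hqq, zero_mul]
  unfold brow8 phz
  rw [sum_ix (dis8 h), Finset.sum_congr rfl h1, Finset.sum_congr rfl h2, Finset.sum_const_zero,
    h.nq q hq, h.rq q hq, h.eq q hq, hfQ q hq, Finset.sum_union (dis8 h), hr.q q hq]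
  have h3 : ∑ k ∈ Q, S k * nr q k = 0 :=
    Finset.sum_eq_zero fun q hq => by rw [hr.q q hq, zero_mul]
  rw [h3]
  ring

lemma last8 (h : En8 Q P m n r e ε s a t) {x : ℕ × Bool → ZMod 2} {Z S : ℕ → ZMod 2}
    (hr : Rel Q P x Z S) : ∑ i ∈ ix Q P, r i * x i = lamz Q P t Z S := by
  have h1 : ∀ k ∈ P, r (k, false) * x (k, false) + r (k, true) * x (k, true) =
      uu k * Z k + t k * S k := by
    intro k hk
    rw [h.rf k hk, h.rt k hk, hr.t k hk, hr.f k (Finset.mem_union_right _ hk)]
    linear_combination two_self (t k * Z k)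
  have h2 : ∀ q ∈ Q, r (q, false) * x (q, false) = uu q * Z q + Z q := by
    intro q hq
    rw [h.rq q hq, hr.f q (Finset.mem_union_left _ hq)]
    ring
  rw [sum_ix (dis8 h), Finset.sum_congr rfl h1, Finset.sum_congr rfl h2]
  unfold lamz
  rw [Finset.sum_union (dis8 h), Finset.sum_add_distrib, Finset.sum_add_distrib]
  ring

/-- the additional term on the solutions of the dual equations -/
lemma lamz8 (h : En8 Q P m n r e ε s a t) {Z S : ℕ → ZMod 2} (hS : ∀ q ∈ Q, S q = 0)
    (h2 : ∀ p ∈ P, phz Q P t S p + N8 s p * S p + uu p * Z p = 0)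
    (h3 : ∀ q ∈ Q, phz Q P t S q + (1 + uu q) * Z q = 0) :
    lamz Q P t Z S = ∑ k ∈ P, N8 s k * S k := by
  have e1 : ∑ l ∈ Q ∪ P, phz Q P t S l = ∑ k ∈ P, t k * S k := by
    unfold phz
    rw [Finset.sum_add_distrib, Finset.sum_comm]
    have e2 : ∑ l ∈ Q ∪ P, (t l + ∑ k ∈ Q ∪ P, nr k l) * S l =
        ∑ k ∈ P, t k * S k + ∑ l ∈ Q ∪ P, ∑ k ∈ Q ∪ P, S l * nr k l := by
      have e3 : ∀ l ∈ Q ∪ P, (t l + ∑ k ∈ Q ∪ P, nr k l) * S l =
          t l * S l + ∑ k ∈ Q ∪ P, S l * nr k l := by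
        intro l _
        rw [add_mul, Finset.sum_mul]
        congr 1
        exact Finset.sum_congr rfl fun k _ => mul_comm _ _
      have e4 : ∑ q ∈ Q, t q * S q = 0 :=
        Finset.sum_eq_zero fun q hq => by rw [hS q hq, mul_zero]
      rw [Finset.sum_congr rfl e3, Finset.sum_add_distrib,
        Finset.sum_union (f := fun l => t l * S l) (dis8 h), e4, zero_add]
    rw [e2]
    linear_combination two_self (∑ l ∈ Q ∪ P, ∑ k ∈ Q ∪ P, S l * nr k l)
  have e5 : ∑ l ∈ Q ∪ P, phz Q P t S l = ∑ j ∈ Q ∪ P, uu j * Z j + ∑ q ∈ Q, Z q +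
      ∑ k ∈ P, N8 s k * S k := by
    rw [Finset.sum_union (dis8 h), Finset.sum_union (f := fun j => uu j * Z j) (dis8 h)]
    have e6 : ∀ q ∈ Q, phz Q P t S q = uu q * Z q + Z q := by
      intro q hq
      linear_combination h3 q hq - two_self (uu q * Z q) - two_self (Z q)
    have e7 : ∀ p ∈ P, phz Q P t S p = uu p * Z p + N8 s p * S p := by
      intro p hp
      linear_combination h2 p hp - two_self (uu p * Z p) - two_self (N8 s p * S p)
    rw [Finset.sum_congr rfl e6, Finset.sum_congr rfl e7, Finset.sum_add_distrib,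
      Finset.sum_add_distrib]
    ring
  unfold lamz
  linear_combination -e5 + e1 + two_self (∑ k ∈ P, t k * S k) - two_self (∑ k ∈ P, N8 s k * S k)

/-- the whole system in the variables `Z`, `S`, `y` -/
lemma rows_iff8 (h : En8 Q P m n r e ε s a t) {x : ℕ × Bool → ZMod 2} {Z S : ℕ → ZMod 2}
    (hr : Rel Q P x Z S) (y : ZMod 2) :
    ((∀ i ∈ ix Q P, brow8 Q P m n r e ε x y i = 0) ∧ ∑ i ∈ ix Q P, r i * x i + s * y = 0) ↔
    (∀ p ∈ P, rowz Q P a t Z S p + N8 s p * (Z p + y) = 0) ∧
      (∀ p ∈ P, phz Q P t S p + N8 s p * S p + uu p * Z p = 0) ∧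
      (∀ q ∈ Q, phz Q P t S q + (1 + uu q) * Z q = 0) ∧ ∑ k ∈ P, N8 s k * S k + s * y = 0 := by
  rw [last8 h hr]
  constructor
  · rintro ⟨h1, h5⟩
    have h2 : ∀ p ∈ P, phz Q P t S p + N8 s p * S p + uu p * Z p = 0 := by
      intro p hp
      rw [← brow8_pt h hr y hp, h1 _ (mem_ix.2 (Or.inr (Or.inl ⟨hp, rfl⟩))),
        h1 _ (mem_ix.2 (Or.inr (Or.inr ⟨hp, rfl⟩))), add_zero]
    have h3 : ∀ q ∈ Q, phz Q P t S q + (1 + uu q) * Z q = 0 := by
      intro q hq
      rw [← brow8_q h hr y hq]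
      exact h1 _ (mem_ix.2 (Or.inl ⟨hq, rfl⟩))
    refine ⟨fun p hp => ?_, h2, h3, ?_⟩
    · have h6 := brow8_pf h hr y hp
      rw [h5, mul_zero, add_zero] at h6
      rw [← h6]
      exact h1 _ (mem_ix.2 (Or.inr (Or.inl ⟨hp, rfl⟩)))
    · rw [← lamz8 h hr.q h2 h3]
      exact h5
  · rintro ⟨h1, h2, h3, h7⟩
    have h5 : lamz Q P t Z S + s * y = 0 := by
      rw [lamz8 h hr.q h2 h3]
      exact h7
    refine ⟨?_, h5⟩
    rintro ⟨l, b⟩ hi
    rcases mem_ix.1 hi with ⟨h4, h6⟩ | ⟨h4, h6⟩ | ⟨h4, h6⟩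
    · simp only at h4 h6
      subst h6
      rw [brow8_q h hr y h4]
      exact h3 _ h4
    · simp only at h4 h6
      subst h6
      rw [brow8_pf h hr y h4, h5, mul_zero, add_zero]
      exact h1 _ h4
    · simp only at h4 h6
      subst h6
      have h8 := brow8_pt h hr y h4
      rw [h2 _ h4, brow8_pf h hr y h4, h1 _ h4, h5, mul_zero, add_zero, zero_add] at h8
      exact h8

/-! ### the good systems -/

lemma mP8 (h : En8 Q P m n r e ε s a t) {l : ℕ} (hl : l ∈ Q ∪ P) : m3 l = 1 ↔ l ∈ P := by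
  unfold m3
  constructor
  · intro h1
    rcases Finset.mem_union.1 hl with h2 | h2
    · have h3 := (h.q l h2).2.2
      rw [if_neg (by omega)] at h1
      omega
    · exact h2
  · intro h1
    rw [if_pos (h.p l h1).2]

lemma gP8 (h : En8 Q P m n r e ε s a t) {l : ℕ} (hl : l ∈ P) :
    (if ty l = 2 ∨ ty l = 1 then (0 : ZMod 2) else 1) = uu l := by
  have h1 := (h.p l hl).2
  unfold ty uu m3
  rw [if_pos h1]
  by_cases h2 : l % 4 = 3
  · rw [if_pos h2, if_pos h2, if_neg (by omega)]
  · rw [if_neg h2, if_neg h2, if_pos (by omega)]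

lemma gQ8 (h : En8 Q P m n r e ε s a t) {l : ℕ} (hl : l ∈ Q) :
    (if ty l = 2 ∨ ty l = 1 then (0 : ZMod 2) else 1) = 1 + uu l := by
  have h1 := (h.q l hl).2.2
  unfold ty uu m3
  rw [if_neg (by omega : ¬ l % 3 = 1)]
  by_cases h2 : l % 4 = 3
  · rw [if_pos h2, if_pos h2, if_pos (by omega)]
    decide
  · rw [if_neg h2, if_neg h2, if_neg (by omega), add_zero]

/-- the values at the additional prime -/
def vO (y : ZMod 2) (Z : ℕ → ZMod 2) : Option ℕ → ZMod 2
  | none => y
  | some l => Z l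

/-- the type of the additional prime -/
def tO (s : ZMod 2) : ℕ := if s = 1 then 0 else 1

lemma s_cases (s : ZMod 2) : s = 1 ∧ tO s = 0 ∨ s = 0 ∧ tO s = 1 := by
  revert s
  decide

lemma nO_N (s : ZMod 2) (l : ℕ) : nO (tO s) none (some l) = N8 s l := by
  show n2 l + (if tO s = 1 then uu l else 0) = n2 l + uu l + s * uu l
  rcases s_cases s with ⟨h1, h2⟩ | ⟨h1, h2⟩
  · rw [h2, h1, if_neg (by norm_num)]
    linear_combination -(two_self (uu l))
  · rw [h2, h1, if_pos rfl]
    ring

variable (Q P a t s) in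
/-- the data -/
def dd : Pool.Agent.L0h74.E3.Dt := ⟨tO s, fun p k => a k p + uu p * uu k + uu p * t k, t⟩

lemma sumO (f : Option ℕ → ZMod 2) : ∑ k : {x // x ∈ Finset.insertNone (Q ∪ P)}, f k =
    f none + ∑ k ∈ Q ∪ P, f (some k) := by
  rw [Finset.sum_coe_sort (Finset.insertNone (Q ∪ P)) f, Finset.sum_insertNone]

lemma row8 (p : ℕ) (y : ZMod 2) (Z S : ℕ → ZMod 2)
    (i : {x // x ∈ Finset.insertNone (Q ∪ P)}) (hi : (i : Option ℕ) = some p) :
    rw' (fun i j : {x // x ∈ Finset.insertNone (Q ∪ P)} => nO (tO s) j i) (fun i => bO (dd s a t) i)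
      (fun i => vO y Z i) i + bO (dd s a t) i * vO 0 S i +
      ∑ k : {x // x ∈ Finset.insertNone (Q ∪ P)}, (if i = k then 0 else eO (dd s a t) i k) * vO 0 S k =
      rowz Q P a t Z S p + N8 s p * (Z p + y) := by
  rw [rw_eq]
  have e1 : ∑ j : {x // x ∈ Finset.insertNone (Q ∪ P)}, nO (tO s) j i * (vO y Z j + vO y Z i) =
      N8 s p * (y + Z p) + ∑ j ∈ Q ∪ P, nr j p * (Z j + Z p) := by
    rw [hi, sumO (fun j => nO (tO s) j (some p) * (vO y Z j + vO y Z (some p))), nO_N]
    rfl
  have e2 : ∑ k : {x // x ∈ Finset.insertNone (Q ∪ P)},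
      (if i = k then 0 else eO (dd s a t) i k) * vO 0 S k =
      ∑ k ∈ Q ∪ P, (if p = k then 0 else (a k p + uu p * uu k + uu p * t k) + nr k p) * S k := by
    have e3 : ∀ k : {x // x ∈ Finset.insertNone (Q ∪ P)},
        (if i = k then 0 else eO (dd s a t) i k) * vO 0 S k =
        (fun k : Option ℕ => (if some p = k then 0 else eO (dd s a t) (some p) k) * vO 0 S k) k := by
      intro k
      show _ = (if some p = (k : Option ℕ) then 0 else eO (dd s a t) (some p) k) * vO 0 S k
      rw [← hi]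
      by_cases hik : i = k
      · rw [if_pos hik, if_pos (congrArg Subtype.val hik)]
      · rw [if_neg hik, if_neg (fun h' => hik (Subtype.ext h'))]
    rw [Finset.sum_congr rfl fun k _ => e3 k, sumO (fun k : Option ℕ =>
      (if some p = k then 0 else eO (dd s a t) (some p) k) * vO 0 S k)]
    have e4 : (if some p = (none : Option ℕ) then 0 else eO (dd s a t) (some p) none) * vO 0 S none =
        0 := mul_zero _
    rw [e4, zero_add]
    refine Finset.sum_congr rfl fun k _ => ?_
    by_cases hpk : p = k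
    · rw [if_pos hpk, if_pos (congrArg some hpk)]
      rfl
    · rw [if_neg hpk, if_neg (fun h' => hpk (Option.some.inj h'))]
      rfl
  rw [e1, e2, hi]
  unfold rowz
  show N8 s p * (y + Z p) + ∑ j ∈ Q ∪ P, nr j p * (Z j + Z p) + t p * Z p + t p * S p + _ = _
  ring

lemma ph8 (p : ℕ) (S : ℕ → ZMod 2)
    (i : {x // x ∈ Finset.insertNone (Q ∪ P)}) (hi : (i : Option ℕ) = some p) :
    Ph (fun i j : {x // x ∈ Finset.insertNone (Q ∪ P)} => nO (tO s) j i) (fun i => bO (dd s a t) i)
      (fun i => vO 0 S i) i = phz Q P t S p + N8 s p * S p := by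
  unfold Ph TT
  have e1 : ∑ j : {x // x ∈ Finset.insertNone (Q ∪ P)}, vO 0 S j * nO (tO s) i j =
      ∑ j ∈ Q ∪ P, S j * nr p j := by
    rw [hi, sumO (fun j => vO 0 S j * nO (tO s) (some p) j)]
    show 0 * _ + _ = _
    rw [zero_mul, zero_add]
    rfl
  have e2 : ∑ j : {x // x ∈ Finset.insertNone (Q ∪ P)}, nO (tO s) j i =
      N8 s p + ∑ j ∈ Q ∪ P, nr j p := by
    rw [hi, sumO (fun j => nO (tO s) j (some p)), nO_N]
    rfl
  rw [e1, e2]
  show _ + (bO (dd s a t) (i : Option ℕ) + _) * vO 0 S i = _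
  rw [hi]
  unfold phz
  show _ + (t p + _) * S p = _
  ring

lemma phn8 (S : ℕ → ZMod 2) (hd : Disjoint Q P) (hS : ∀ q ∈ Q, S q = 0)
    (i : {x // x ∈ Finset.insertNone (Q ∪ P)}) (hi : (i : Option ℕ) = none) :
    Ph (fun i j : {x // x ∈ Finset.insertNone (Q ∪ P)} => nO (tO s) j i) (fun i => bO (dd s a t) i)
      (fun i => vO 0 S i) i = ∑ k ∈ P, N8 s k * S k := by
  unfold Ph TT
  have e1 : ∑ j : {x // x ∈ Finset.insertNone (Q ∪ P)}, vO 0 S j * nO (tO s) i j =
      ∑ k ∈ P, N8 s k * S k := by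
    rw [hi, sumO (fun j => vO 0 S j * nO (tO s) none j)]
    show 0 * _ + ∑ k ∈ Q ∪ P, S k * nO (tO s) none (some k) = _
    rw [zero_mul, zero_add, Finset.sum_union hd,
      Finset.sum_eq_zero fun q hq => by rw [hS q hq, zero_mul], zero_add]
    refine Finset.sum_congr rfl fun k _ => ?_
    rw [nO_N, mul_comm]
  rw [e1]
  show _ + _ * vO 0 S i = _
  rw [hi]
  show _ + _ * 0 = _
  rw [mul_zero, add_zero]

lemma sys_nat8 (h : En8 Q P m n r e ε s a t) (y : ZMod 2) (Z S : ℕ → ZMod 2)
    (hS : ∀ q ∈ Q, S q = 0) :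
    Sys (Finset.univ.filter fun i : {x // x ∈ Finset.insertNone (Q ∪ P)} => m3O i = 1)
      (Finset.univ.filter fun i : {x // x ∈ Finset.insertNone (Q ∪ P)} =>
        tyO (tO s) i = 2 ∨ tyO (tO s) i = 1)
      (fun i j => nO (tO s) j i) (fun i j => if i = j then 0 else eO (dd s a t) i j)
      (fun i => bO (dd s a t) i) (fun i => vO y Z i) (fun i => vO 0 S i) ↔
    (∀ p ∈ P, rowz Q P a t Z S p + N8 s p * (Z p + y) = 0) ∧
      (∀ p ∈ P, phz Q P t S p + N8 s p * S p + uu p * Z p = 0) ∧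
      (∀ q ∈ Q, phz Q P t S q + (1 + uu q) * Z q = 0) ∧ ∑ k ∈ P, N8 s k * S k + s * y = 0 := by
  have hm : ∀ l ∈ Q ∪ P, some l ∈ Finset.insertNone (Q ∪ P) := fun l hl =>
    Finset.some_mem_insertNone.2 hl
  have hn : (none : Option ℕ) ∈ Finset.insertNone (Q ∪ P) := Finset.none_mem_insertNone
  have hcn : (if tyO (tO s) none = 2 ∨ tyO (tO s) none = 1 then (0 : ZMod 2) else 1) = s := by
    show (if tO s = 2 ∨ tO s = 1 then (0 : ZMod 2) else 1) = s
    rcases s_cases s with ⟨h1, h2⟩ | ⟨h1, h2⟩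
    · rw [h2, if_neg (by omega), h1]
    · rw [h2, if_pos (Or.inr rfl), h1]
  constructor
  · rintro ⟨-, h2, h3⟩
    refine ⟨fun p hp => ?_, fun p hp => ?_, fun q hq => ?_, ?_⟩
    · have hp' : p ∈ Q ∪ P := Finset.mem_union_right _ hp
      rw [← row8 p y Z S ⟨some p, hm p hp'⟩ rfl]
      exact h2 ⟨some p, hm p hp'⟩ (Finset.mem_filter.2 ⟨Finset.mem_univ _, (mP8 h hp').2 hp⟩)
    · have hp' : p ∈ Q ∪ P := Finset.mem_union_right _ hp
      have h4 := h3 ⟨some p, hm p hp'⟩
      rw [ph8 p S ⟨some p, hm p hp'⟩ rfl] at h4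
      simp only [Finset.mem_filter, Finset.mem_univ, true_and] at h4
      have h5 : (if tyO (tO s) (some p) = 2 ∨ tyO (tO s) (some p) = 1 then (0 : ZMod 2) else 1) =
          uu p := gP8 h hp
      rwa [h5] at h4
    · have hq' : q ∈ Q ∪ P := Finset.mem_union_left _ hq
      have h4 := h3 ⟨some q, hm q hq'⟩
      rw [ph8 q S ⟨some q, hm q hq'⟩ rfl, hS q hq, mul_zero, add_zero] at h4
      simp only [Finset.mem_filter, Finset.mem_univ, true_and] at h4
      have h5 : (if tyO (tO s) (some q) = 2 ∨ tyO (tO s) (some q) = 1 then (0 : ZMod 2) else 1) =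
          1 + uu q := gQ8 h hq
      rwa [h5] at h4
    · have h4 := h3 ⟨none, hn⟩
      rw [phn8 S (dis8 h) hS ⟨none, hn⟩ rfl] at h4
      simp only [Finset.mem_filter, Finset.mem_univ, true_and] at h4
      rw [hcn] at h4
      exact h4
  · rintro ⟨h1, h2, h3, h7⟩
    refine ⟨?_, ?_, ?_⟩
    · rintro ⟨i, hi⟩ hns
      match i, hi, hns with
      | none, _, _ => rfl
      | some l, hl, hns =>
        show S l = 0
        have hl' := Finset.some_mem_insertNone.1 hl
        rcases Finset.mem_union.1 hl' with h4 | h4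
        · exact hS _ h4
        · exact (hns (Finset.mem_filter.2 ⟨Finset.mem_univ _, (mP8 h hl').2 h4⟩)).elim
    · rintro ⟨i, hi⟩ his
      match i, hi, his with
      | none, _, his =>
        have := (Finset.mem_filter.1 his).2
        exact absurd this (by show ¬ (0 = 1); omega)
      | some p, hp, his =>
        rw [row8 p y Z S ⟨some p, hp⟩ rfl]
        exact h1 p ((mP8 h (Finset.some_mem_insertNone.1 hp)).1 (Finset.mem_filter.1 his).2)
    · rintro ⟨i, hi⟩
      match i, hi with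
      | none, hi =>
        rw [phn8 S (dis8 h) hS ⟨none, hi⟩ rfl]
        simp only [Finset.mem_filter, Finset.mem_univ, true_and]
        rw [hcn]
        exact h7
      | some l, hl =>
        rw [ph8 l S ⟨some l, hl⟩ rfl]
        simp only [Finset.mem_filter, Finset.mem_univ, true_and]
        rcases Finset.mem_union.1 (Finset.some_mem_insertNone.1 hl) with h4 | h4
        · have h5 : (if tyO (tO s) (some l) = 2 ∨ tyO (tO s) (some l) = 1 then (0 : ZMod 2) else 1) =
            1 + uu l := gQ8 h h4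
          rw [h5, hS l h4, mul_zero, add_zero]
          exact h3 l h4
        · have h5 : (if tyO (tO s) (some l) = 2 ∨ tyO (tO s) (some l) = 1 then (0 : ZMod 2) else 1) =
            uu l := gP8 h h4
          rw [h5]
          exact h2 l h4

/-- **The translation.** -/
theorem t_TR8 : S_TR8 := by
  intro Q P m n r e ε s a t h
  have key : GdE ⟨if s = 1 then 0 else 1, fun p k => a k p + uu p * uu k + uu p * t k, t⟩ (Q ∪ P) ↔
      ∀ z w, Sys (Finset.univ.filter fun i : {x // x ∈ Finset.insertNone (Q ∪ P)} => m3O i = 1)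
      (Finset.univ.filter fun i : {x // x ∈ Finset.insertNone (Q ∪ P)} =>
        tyO (tO s) i = 2 ∨ tyO (tO s) i = 1)
      (fun i j => nO (tO s) j i) (fun i j => if i = j then 0 else eO (dd s a t) i j)
      (fun i => bO (dd s a t) i) z w → (∀ i, z i = 0) ∧ ∀ i, w i = 0 := by
    rw [sys_iff]
    unfold GdE GdO GRO
    constructor <;> intro hh <;> convert hh <;> rfl
  rw [key]
  have key2 : ∀ (x : ℕ × Bool → ZMod 2) (y : ZMod 2), (∀ j ∈ ix Q P,
      ∑ i ∈ (ix Q P).erase j, m i j * x i +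
      (∑ i ∈ (ix Q P).erase j, m i j + e j + (1 + ε) * n j + r j) * x j +
      n j * x (cI Q j) + e j * y = 0) ↔ ∀ j ∈ ix Q P, brow8 Q P m n r e ε x y j = 0 := by
    intro x y
    constructor
    · intro h1 j hj
      rw [← brow8_eq x y hj]
      exact h1 j hj
    · intro h1 j hj
      rw [brow8_eq x y hj]
      exact h1 j hj
  simp only [key2]
  constructor
  · intro h1 z w hzw
    set Z : ℕ → ZMod 2 := fun n => if hn : some n ∈ Finset.insertNone (Q ∪ P) then z ⟨some n, hn⟩ else 0
      with hZ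
    set S : ℕ → ZMod 2 := fun n => if hn : some n ∈ Finset.insertNone (Q ∪ P) then w ⟨some n, hn⟩ else 0
      with hS
    have hn : (none : Option ℕ) ∈ Finset.insertNone (Q ∪ P) := Finset.none_mem_insertNone
    set y : ZMod 2 := z ⟨none, hn⟩ with hy
    have hw0 : w ⟨none, hn⟩ = 0 := by
      apply hzw.sup
      intro h3
      have := (Finset.mem_filter.1 h3).2
      exact absurd this (by show ¬ (0 = 1); omega)
    have ez : (fun i : {x // x ∈ Finset.insertNone (Q ∪ P)} => vO y Z i) = z := by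
      funext ⟨i, hi⟩
      match i, hi with
      | none, _ => rfl
      | some l, hl => exact dif_pos hl
    have es : (fun i : {x // x ∈ Finset.insertNone (Q ∪ P)} => vO 0 S i) = w := by
      funext ⟨i, hi⟩
      match i, hi with
      | none, _ => exact hw0.symm
      | some l, hl => exact dif_pos hl
    have hSQ : ∀ q ∈ Q, S q = 0 := by
      intro q hq
      have hq' : some q ∈ Finset.insertNone (Q ∪ P) :=
        Finset.some_mem_insertNone.2 (Finset.mem_union_left _ hq)
      have h2 : S q = w ⟨some q, hq'⟩ := dif_pos hq'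
      rw [h2]
      apply hzw.sup
      intro h3
      exact Finset.disjoint_left.1 (dis8 h) hq
        ((mP8 h (Finset.mem_union_left _ hq)).1 (Finset.mem_filter.1 h3).2)
    have h2 := (sys_nat8 h y Z S hSQ).1 (by rw [ez, es]; exact hzw)
    set x : ℕ × Bool → ZMod 2 := fun i => if i.2 then Z i.1 + S i.1 else Z i.1 with hx
    have hr : Rel Q P x Z S := ⟨fun n _ => rfl, fun n _ => rfl, hSQ⟩
    obtain ⟨h31, h32⟩ := (rows_iff8 h hr y).2 h2
    obtain ⟨h3, h3y⟩ := h1 x y h31 h32
    have h4 : ∀ n ∈ Q ∪ P, Z n = 0 := by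
      intro n hn
      have : x (n, false) = Z n := rfl
      rw [← this]
      apply h3
      rcases Finset.mem_union.1 hn with h5 | h5
      · exact mem_ix.2 (Or.inl ⟨h5, rfl⟩)
      · exact mem_ix.2 (Or.inr (Or.inl ⟨h5, rfl⟩))
    have h5 : ∀ n ∈ Q ∪ P, S n = 0 := by
      intro n hn
      rcases Finset.mem_union.1 hn with h6 | h6
      · exact hSQ n h6
      · have h7 : x (n, true) = Z n + S n := rfl
        have h8 := h3 (n, true) (mem_ix.2 (Or.inr (Or.inr ⟨h6, rfl⟩)))
        rw [h7, h4 n hn, zero_add] at h8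
        exact h8
    refine ⟨fun i => ?_, fun i => ?_⟩
    · rw [← ez]
      obtain ⟨i, hi⟩ := i
      match i, hi with
      | none, _ => exact h3y
      | some l, hl => exact h4 l (Finset.some_mem_insertNone.1 hl)
    · rw [← es]
      obtain ⟨i, hi⟩ := i
      match i, hi with
      | none, _ => rfl
      | some l, hl => exact h5 l (Finset.some_mem_insertNone.1 hl)
  · intro h1 x y hx hx2
    set Z : ℕ → ZMod 2 := fun n => x (n, false) with hZ
    set S : ℕ → ZMod 2 := fun n => if n ∈ P then x (n, false) + x (n, true) else 0 with hS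
    have hr : Rel Q P x Z S := by
      refine ⟨fun n _ => rfl, fun p hp => ?_, fun q hq => ?_⟩
      · have : S p = x (p, false) + x (p, true) := if_pos hp
        rw [this]
        linear_combination -two_self (x (p, false))
      · exact if_neg (Finset.disjoint_left.1 (dis8 h) hq)
    obtain ⟨h2, h3⟩ := h1 _ _ ((sys_nat8 h y Z S hr.q).2 ((rows_iff8 h hr y).1 ⟨hx, hx2⟩))
    have hm : ∀ l ∈ Q ∪ P, some l ∈ Finset.insertNone (Q ∪ P) := fun l hl =>
      Finset.some_mem_insertNone.2 hl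
    refine ⟨?_, h2 ⟨none, Finset.none_mem_insertNone⟩⟩
    rintro ⟨n, b⟩ hi
    rcases mem_ix.1 hi with ⟨h4, h5⟩ | ⟨h4, h5⟩ | ⟨h4, h5⟩
    · simp only at h4 h5
      subst h5
      exact h2 ⟨some n, hm n (Finset.mem_union_left _ h4)⟩
    · simp only at h4 h5
      subst h5
      exact h2 ⟨some n, hm n (Finset.mem_union_right _ h4)⟩
    · simp only at h4 h5
      subst h5
      rw [hr.t n h4]
      have h6 : Z n = 0 := h2 ⟨some n, hm n (Finset.mem_union_right _ h4)⟩
      have h7 : S n = 0 := h3 ⟨some n, hm n (Finset.mem_union_right _ h4)⟩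
      rw [h6, h7, add_zero]

end

end Pool.Agent.L0h75.E3
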